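import Mathlib
import Pool.Agent.Q151.NU.Main

/-!
# The antidiagonal chain has the largest weight among all `ν`-chains

The definitions (`cells`, `Adj`, `IsIdeal`, `nbhd`, `nu`, `IsNuChain`, `weight`, `anti`, `DD`) are in
`Pool.Agent.Q151.NU.Defs`.
-/

set_option autoImplicit false

namespace Pool.Agent.Results.MP_00a158_co.SlowestChain

open Q151.NU Finset

/-- For `m ≥ n ≥ 1` every `ν`-chain of the `m × n` grid has weight at most `D(m, n)`, the weight of
the antidiagonal chain, which is a `ν`-chain. -/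
theorem result (m n : ℕ) (hmn : n ≤ m) (hn : 1 ≤ n) :
    (∀ (L : ℕ) (c : ℕ → ℕ), IsNuChain m n L c → weight m n L c ≤ DD m n) ∧
      IsNuChain m n (m + n - 2) (anti m n) ∧ weight m n (m + n - 2) (anti m n) = DD m n := by
  classical
  refine ⟨fun L c hc => slowest hmn hn L c hc, ⟨fun l _ => ?_, fun l _ => ?_⟩, rfl⟩
  · rw [← card_cells m n]
    exact card_le_card (filter_subset _ _)
  · have h1 : IsIdeal m n ((cells m n).filter fun p => p.1 + p.2 ≤ l + 2) := by
      refine ⟨filter_subset _ _, ?_⟩
      intro p hp q hq h1 h2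
      rw [mem_filter] at hp ⊢
      exact ⟨hq, by omega⟩
    have h2 : nu m n (anti m n l) ≤
        (nbhd m n ((cells m n).filter fun p => p.1 + p.2 ≤ l + 2)).card :=
      Nat.sInf_le ⟨_, h1, rfl, rfl⟩
    refine h2.trans (card_le_card ?_)
    intro p hp
    unfold nbhd at hp
    rw [mem_filter] at hp ⊢
    refine ⟨hp.1, ?_⟩
    rcases hp.2 with h3 | ⟨q, h3, h4⟩
    · rw [mem_filter] at h3
      omega
    · rw [mem_filter] at h3
      unfold Adj at h4
      omega

end Pool.Agent.Results.MP_00a158_co.SlowestChain
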